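import Mathlib

set_option autoImplicit false

namespace Pool.Agent.Results.MP_ca6ed4_nt.NearSquares

/-- the first identity (Taylor polynomial of degree 2 of `(1 + z)^(3/2)`) -/
theorem idA (x y p q : ℤ) :
    64 * p ^ 2 * q ^ 6 * (y ^ 2 - x ^ 3) =
      (8 * p * q ^ 3 * y - (8 * p ^ 4 + 12 * p ^ 2 * (q ^ 2 * x - p ^ 2) +
        3 * (q ^ 2 * x - p ^ 2) ^ 2)) *
      (8 * p * q ^ 3 * y + (8 * p ^ 4 + 12 * p ^ 2 * (q ^ 2 * x - p ^ 2) +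
        3 * (q ^ 2 * x - p ^ 2) ^ 2)) +
      (q ^ 2 * x - p ^ 2) ^ 3 * (8 * p ^ 2 + 9 * (q ^ 2 * x - p ^ 2)) := by
  ring

/-- the second identity (Padé approximant of type (2,1) of `(1 + z)^(3/2)`) -/
theorem idB (x y p q : ℤ) :
    16 * q ^ 6 * (6 * p ^ 2 + (q ^ 2 * x - p ^ 2)) ^ 2 * (y ^ 2 - x ^ 3) =
      (4 * q ^ 3 * y * (6 * p ^ 2 + (q ^ 2 * x - p ^ 2)) -
        p * (24 * p ^ 4 + 40 * p ^ 2 * (q ^ 2 * x - p ^ 2) + 15 * (q ^ 2 * x - p ^ 2) ^ 2)) *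
      (4 * q ^ 3 * y * (6 * p ^ 2 + (q ^ 2 * x - p ^ 2)) +
        p * (24 * p ^ 4 + 40 * p ^ 2 * (q ^ 2 * x - p ^ 2) + 15 * (q ^ 2 * x - p ^ 2) ^ 2)) -
      (q ^ 2 * x - p ^ 2) ^ 4 * (15 * p ^ 2 + 16 * (q ^ 2 * x - p ^ 2)) := by
  ring

theorem two_abs_le {M p : ℤ} {n : ℕ} (hn : n ≠ 0) (hp : 0 < p) (h : (2 * |M|) ^ (n + 1) ≤ p ^ n) :
    2 * |M| ≤ p := by
  by_contra hcon
  push Not at hcon
  have h1 : p ^ n < (2 * |M|) ^ n := pow_lt_pow_left₀ hcon hp.le hn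
  have h2 : (1 : ℤ) ≤ 2 * |M| := by omega
  have h3 : (2 * |M|) ^ n ≤ (2 * |M|) ^ (n + 1) := pow_le_pow_right₀ h2 (Nat.le_succ n)
  linarith

theorem abs_mul_ge {W S : ℤ} (hW : W ≠ 0) (hS : 0 ≤ S) : S ≤ |W * S| := by
  rw [abs_mul, abs_of_nonneg hS]
  have h1 : 1 ≤ |W| := Int.one_le_abs hW
  nlinarith

theorem partA_ne {x y p q M : ℤ} (hM : M = q ^ 2 * x - p ^ 2) (hp : 0 < p) (hq : 0 < q)
    (hy : 0 ≤ y) (h : 8 * |M| ^ 3 ≤ p ^ 2)
    (hW : 8 * p * q ^ 3 * y - (8 * p ^ 4 + 12 * p ^ 2 * M + 3 * M ^ 2) ≠ 0) :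
    x ≤ 220 * q ^ 4 * |y ^ 2 - x ^ 3| := by
  have h2 : 2 * |M| ≤ p := two_abs_le (n := 2) (by norm_num) hp (by
    have e : (2 * |M|) ^ (2 + 1) = 8 * |M| ^ 3 := by ring
    rw [e]; exact h)
  have hMu := le_abs_self M
  have hMl := neg_abs_le M
  have habs := abs_nonneg M
  set A := 8 * p ^ 4 + 12 * p ^ 2 * M + 3 * M ^ 2 with hA
  have hp2 : 0 < p ^ 2 := by positivity
  have hA2 : 2 * p ^ 4 ≤ A := by
    have e1 : -(6 * p ^ 3) ≤ 12 * p ^ 2 * M := by nlinarith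
    have e2 : p ^ 3 ≤ p ^ 4 := pow_le_pow_right₀ (by omega) (by norm_num)
    have e3 : 0 ≤ 3 * M ^ 2 := by positivity
    linarith
  have hid := idA x y p q
  rw [← hM, ← hA] at hid
  have hA0 : 0 ≤ A := le_trans (by positivity) hA2
  have hS : 0 ≤ 8 * p * q ^ 3 * y + A := add_nonneg (by positivity) hA0
  have h3 := abs_mul_ge hW hS
  have h4 : |M ^ 3 * (8 * p ^ 2 + 9 * M)| * 16 ≤ 25 * p ^ 4 := by
    have e1 : |8 * p ^ 2 + 9 * M| ≤ 8 * p ^ 2 + 9 * |M| := by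
      rw [abs_le]
      constructor <;> linarith
    have e2 : 16 * |M ^ 3| ≤ 2 * p ^ 2 := by
      rw [abs_pow]; linarith
    rw [abs_mul]
    have e3 : 8 * p ^ 2 + 9 * |M| ≤ 8 * p ^ 2 + 9 * |M| := le_rfl
    have e4 : 2 * (8 * p ^ 2 + 9 * |M|) ≤ 25 * p ^ 2 := by nlinarith
    calc |M ^ 3| * |8 * p ^ 2 + 9 * M| * 16 = (16 * |M ^ 3|) * |8 * p ^ 2 + 9 * M| := by ring
      _ ≤ (2 * p ^ 2) * (8 * p ^ 2 + 9 * |M|) :=
          mul_le_mul e2 e1 (abs_nonneg _) (by positivity)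
      _ = p ^ 2 * (2 * (8 * p ^ 2 + 9 * |M|)) := by ring
      _ ≤ p ^ 2 * (25 * p ^ 2) := mul_le_mul_of_nonneg_left e4 hp2.le
      _ = 25 * p ^ 4 := by ring
  have h5 : 8 * p * q ^ 3 * y + A ≤ |64 * p ^ 2 * q ^ 6 * (y ^ 2 - x ^ 3)| +
      |M ^ 3 * (8 * p ^ 2 + 9 * M)| := by
    refine h3.trans ?_
    have e1 : (8 * p * q ^ 3 * y - A) * (8 * p * q ^ 3 * y + A) =
        64 * p ^ 2 * q ^ 6 * (y ^ 2 - x ^ 3) - M ^ 3 * (8 * p ^ 2 + 9 * M) := by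
      rw [hid]; ring
    rw [e1]
    exact abs_sub _ _
  have h6 : |64 * p ^ 2 * q ^ 6 * (y ^ 2 - x ^ 3)| = 64 * p ^ 2 * q ^ 6 * |y ^ 2 - x ^ 3| := by
    rw [abs_mul, abs_of_nonneg (show 0 ≤ 64 * p ^ 2 * q ^ 6 by positivity)]
  rw [h6] at h5
  set k := |y ^ 2 - x ^ 3| with hk
  have hk0 : 0 ≤ k := abs_nonneg _
  have h7 : 0 ≤ 8 * p * q ^ 3 * y := by positivity
  have h8 : p ^ 2 * (7 * p ^ 2) ≤ p ^ 2 * (1024 * q ^ 6 * k) := by nlinarith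
  have h9 : 7 * p ^ 2 ≤ 1024 * q ^ 6 * k := le_of_mul_le_mul_left h8 hp2
  have h10 : 2 * (q ^ 2 * x) ≤ 3 * p ^ 2 := by nlinarith
  have hq2 : 0 < q ^ 2 := by positivity
  have h11 : q ^ 2 * (14 * x) ≤ q ^ 2 * (3072 * q ^ 4 * k) := by nlinarith
  have h12 := le_of_mul_le_mul_left h11 hq2
  have h13 : 0 ≤ q ^ 4 * k := by positivity
  nlinarith

theorem partA_eq {x y p q M : ℤ} (hM : M = q ^ 2 * x - p ^ 2) (hp : 0 < p) (hq : 0 < q)
    (hc : IsCoprime p q) (h : 8 * |M| ^ 3 ≤ p ^ 2) (hk : y ^ 2 - x ^ 3 ≠ 0)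
    (hW : 8 * p * q ^ 3 * y - (8 * p ^ 4 + 12 * p ^ 2 * M + 3 * M ^ 2) = 0) :
    x ^ 3 ≤ 320638531 * (y ^ 2 - x ^ 3) ^ 4 := by
  have h2 : 2 * |M| ≤ p := two_abs_le (n := 2) (by norm_num) hp (by
    have e : (2 * |M|) ^ (2 + 1) = 8 * |M| ^ 3 := by ring
    rw [e]; exact h)
  have hMu := le_abs_self M
  have hMl := neg_abs_le M
  have habs := abs_nonneg M
  -- `q = 1`
  have hq1 : q = 1 := by
    have h3 : q ∣ p ^ 4 := by
      refine ⟨q * (6 * p ^ 2 * x + 3 * q ^ 2 * x ^ 2) - 8 * p * q ^ 2 * y, ?_⟩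
      rw [hM] at hW
      linear_combination hW
    have h4 : IsCoprime q (p ^ 4) := (hc.symm).pow_right
    have h5 : IsUnit q := h4.isUnit_of_dvd' dvd_rfl h3
    rcases Int.isUnit_iff.1 h5 with h6 | h6
    · exact h6
    · omega
  subst hq1
  have hM0 : M ≠ 0 := by
    rintro rfl
    apply hk
    have e1 : x = p ^ 2 := by linarith
    have e2 : p * (y - p ^ 3) = 0 := by nlinarith
    rcases mul_eq_zero.1 e2 with e3 | e3
    · omega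
    · have e4 : y = p ^ 3 := by linarith
      rw [e1, e4]; ring
  have hdiv : p ∣ 3 * M ^ 2 := by
    refine ⟨8 * y - 8 * p ^ 3 - 12 * p * M, ?_⟩
    linear_combination -hW
  have hple : p ≤ 3 * M ^ 2 := Int.le_of_dvd (by positivity) hdiv
  have hid := idA x y p 1
  rw [← hM] at hid
  simp only [one_pow, mul_one] at hid hW hM
  rw [hW, zero_mul, zero_add] at hid
  have h3 : 64 * p ^ 2 * |y ^ 2 - x ^ 3| = |M| ^ 3 * |8 * p ^ 2 + 9 * M| := by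
    have := congrArg abs hid
    rw [abs_mul (64 * p ^ 2), abs_mul (M ^ 3), abs_of_nonneg (show 0 ≤ 64 * p ^ 2 by positivity),
      abs_pow] at this
    exact this
  have h4 : 7 * p ^ 2 ≤ 2 * |8 * p ^ 2 + 9 * M| := by
    have e1 := le_abs_self (8 * p ^ 2 + 9 * M)
    nlinarith
  set k := |y ^ 2 - x ^ 3| with hkdef
  have hk0 : 0 ≤ k := abs_nonneg _
  have hp2 : 0 < p ^ 2 := by positivity
  have hM3 : 0 ≤ |M| ^ 3 := by positivity
  have h5 : p ^ 2 * (7 * |M| ^ 3) ≤ p ^ 2 * (128 * k) := by nlinarith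
  have h6 := le_of_mul_le_mul_left h5 hp2
  have h7 : |M| ^ 3 ≤ 19 * k := by omega
  have h8 : M ^ 6 ≤ 361 * k ^ 2 := by
    have e1 : M ^ 6 = (|M| ^ 3) ^ 2 := by
      rw [← pow_mul, show 3 * 2 = 6 by norm_num]
      exact (Even.pow_abs (by decide) M).symm
    rw [e1]
    calc (|M| ^ 3) ^ 2 ≤ (19 * k) ^ 2 := pow_le_pow_left₀ hM3 h7 2
      _ = 361 * k ^ 2 := by ring
  have h9 : p ^ 3 ≤ 9747 * k ^ 2 := by
    calc p ^ 3 ≤ (3 * M ^ 2) ^ 3 := pow_le_pow_left₀ hp.le hple 3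
      _ = 27 * M ^ 6 := by ring
      _ ≤ 9747 * k ^ 2 := by linarith
  have h10 : 2 * x ≤ 3 * p ^ 2 := by nlinarith
  have hx0 : 0 ≤ x := by nlinarith
  have h11 : (2 * x) ^ 3 ≤ (3 * p ^ 2) ^ 3 := pow_le_pow_left₀ (by linarith) h10 3
  have h12 : (p ^ 3) ^ 2 ≤ (9747 * k ^ 2) ^ 2 := pow_le_pow_left₀ (by positivity) h9 2
  have h13 : (y ^ 2 - x ^ 3) ^ 4 = k ^ 4 := (Even.pow_abs (by decide) _).symm
  rw [h13]
  have h14 : 0 ≤ k ^ 4 := by positivity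
  nlinarith

theorem partB {x y p q M : ℤ} (hM : M = q ^ 2 * x - p ^ 2) (hp : 0 < p) (hq : 0 < q)
    (hy : 0 ≤ y) (h : 16 * M ^ 4 ≤ p ^ 3) (hk : y ^ 2 - x ^ 3 ≠ 0) :
    x ≤ 104544 * q ^ 10 * (y ^ 2 - x ^ 3) ^ 2 := by
  have hMabs : |M| ^ 4 = M ^ 4 := Even.pow_abs (by decide) M
  have h2 : 2 * |M| ≤ p := two_abs_le (n := 3) (by norm_num) hp (by
    have e : (2 * |M|) ^ (3 + 1) = 16 * |M| ^ 4 := by ring
    rw [e, hMabs]; exact h)
  have hMu := le_abs_self M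
  have hMl := neg_abs_le M
  have habs := abs_nonneg M
  have hp2 : 0 < p ^ 2 := by positivity
  have hpp : p ≤ p ^ 2 := by nlinarith
  have hq2 : 0 < q ^ 2 := by positivity
  have hx10 : 2 * (q ^ 2 * x) ≤ 3 * p ^ 2 := by nlinarith
  have hk1 : 1 ≤ |y ^ 2 - x ^ 3| := Int.one_le_abs hk
  have hksq : (y ^ 2 - x ^ 3) ^ 2 = |y ^ 2 - x ^ 3| ^ 2 := (sq_abs _).symm
  rw [hksq]
  by_cases hM0 : M = 0
  · -- `x` is a square
    have e1 : q ^ 2 * x = p ^ 2 := by linarith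
    have e2 : q ∣ p := by
      rw [← Int.pow_dvd_pow_iff (n := 2) (by norm_num)]
      exact ⟨x, e1.symm⟩
    obtain ⟨a, rfl⟩ := e2
    have e3 : x = a ^ 2 := by
      have : q ^ 2 * x = q ^ 2 * a ^ 2 := by rw [e1]; ring
      exact mul_left_cancel₀ hq2.ne' this
    have ha : 0 < a := by
      by_contra hcon
      push Not at hcon
      nlinarith
    have e4 : y ^ 2 - x ^ 3 = (y - a ^ 3) * (y + a ^ 3) := by rw [e3]; ring
    have e5 : y - a ^ 3 ≠ 0 := by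
      intro e6
      apply hk
      rw [e4, e6, zero_mul]
    have e6 : a ≤ |y ^ 2 - x ^ 3| := by
      rw [e4]
      have e7 : 0 ≤ y + a ^ 3 := by positivity
      have e8 := abs_mul_ge e5 e7
      have e9 : a ≤ a ^ 3 := by
        calc a = a ^ 1 := (pow_one a).symm
          _ ≤ a ^ 3 := pow_le_pow_right₀ ha (by norm_num)
      linarith
    have e7 : x ≤ |y ^ 2 - x ^ 3| ^ 2 := by
      conv_lhs => rw [e3]
      exact pow_le_pow_left₀ ha.le e6 2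
    have e8 : 1 ≤ 104544 * q ^ 10 := by
      have : 1 ≤ q ^ 10 := one_le_pow₀ hq
      linarith
    have e9 : 0 ≤ |y ^ 2 - x ^ 3| ^ 2 := by positivity
    nlinarith
  -- main case
  set D := 6 * p ^ 2 + M with hD
  set B := 24 * p ^ 4 + 40 * p ^ 2 * M + 15 * M ^ 2 with hB
  have hD5 : 5 * p ^ 2 ≤ D := by nlinarith
  have hDu : 2 * D ≤ 13 * p ^ 2 := by nlinarith
  have hD0 : 0 < D := by nlinarith
  have hB4 : 4 * p ^ 4 ≤ B := by
    have e1 : -(20 * p ^ 3) ≤ 40 * p ^ 2 * M := by nlinarith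
    have e2 : p ^ 3 ≤ p ^ 4 := pow_le_pow_right₀ (by omega) (by norm_num)
    have e3 : 0 ≤ 15 * M ^ 2 := by positivity
    linarith
  have hE : 4 * q ^ 3 * y * D - p * B ≠ 0 := by
    intro hE
    have hdvd : D ∣ 324 * p ^ 5 := by
      refine ⟨4 * q ^ 3 * y - p * (15 * D - 140 * p ^ 2), ?_⟩
      have e1 : M = D - 6 * p ^ 2 := by rw [hD]; ring
      have e2 : B = 324 * p ^ 4 + D * (15 * D - 140 * p ^ 2) := by
        rw [hB, e1]; ring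
      rw [e2] at hE
      linear_combination -hE
    -- pass to natural numbers
    obtain ⟨d, hd⟩ := Int.eq_ofNat_of_zero_le hD0.le
    obtain ⟨r, hr⟩ := Int.eq_ofNat_of_zero_le hp.le
    have hdvd' : d ∣ 324 * r ^ 5 := by
      rw [hd, hr] at hdvd
      exact_mod_cast hdvd
    set G := Nat.gcd d (6 * r ^ 2) with hG
    have hG5 : d ^ 2 ∣ 27 * G ^ 5 := by
      have e1 : G ^ 5 = Nat.gcd (d ^ 5) ((6 * r ^ 2) ^ 5) := Nat.pow_gcd_pow.symm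
      rw [e1, ← Nat.gcd_mul_left]
      apply Nat.dvd_gcd
      · exact Dvd.dvd.mul_left (pow_dvd_pow d (by norm_num)) 27
      · have e2 : d ^ 2 ∣ (324 * r ^ 5) ^ 2 := pow_dvd_pow_of_dvd hdvd' 2
        have e3 : 27 * (6 * r ^ 2) ^ 5 = 2 * (324 * r ^ 5) ^ 2 := by ring
        rw [e3]
        exact Dvd.dvd.mul_left e2 2
    have hGM : (G : ℤ) ∣ M := by
      have e1 : (G : ℤ) ∣ D := by
        rw [hd]
        exact_mod_cast Nat.gcd_dvd_left d (6 * r ^ 2)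
      have e2 : (G : ℤ) ∣ 6 * p ^ 2 := by
        rw [hr]
        exact_mod_cast Nat.gcd_dvd_right d (6 * r ^ 2)
      have e3 : M = D - 6 * p ^ 2 := by rw [hD]; ring
      rw [e3]
      exact dvd_sub e1 e2
    have hGle : (G : ℤ) ≤ |M| := by
      have e1 : (G : ℤ) ∣ |M| := (dvd_abs _ _).2 hGM
      exact Int.le_of_dvd (abs_pos.2 hM0) e1
    have hdpos : 0 < d := by
      have : (0 : ℤ) < d := by rw [← hd]; exact hD0
      exact_mod_cast this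
    have hGpos : 0 < G := Nat.gcd_pos_of_pos_left _ hdpos
    have hle : d ^ 2 ≤ 27 * G ^ 5 := Nat.le_of_dvd (by positivity) hG5
    have hleZ : D ^ 2 ≤ 27 * |M| ^ 5 := by
      have e1 : D ^ 2 ≤ 27 * (G : ℤ) ^ 5 := by
        rw [hd]
        exact_mod_cast hle
      have e2 : (G : ℤ) ^ 5 ≤ |M| ^ 5 := pow_le_pow_left₀ (by positivity) hGle 5
      linarith
    have h25 : 25 * p ^ 4 ≤ D ^ 2 := by
      have := pow_le_pow_left₀ (by positivity : (0 : ℤ) ≤ 5 * p ^ 2) hD5 2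
      nlinarith
    have h32 : 32 * |M| ^ 5 ≤ p ^ 4 := by
      calc 32 * |M| ^ 5 = (2 * |M|) * (16 * |M| ^ 4) := by ring
        _ ≤ p * p ^ 3 := by
            rw [hMabs]
            exact mul_le_mul h2 h (by positivity) hp.le
        _ = p ^ 4 := by ring
    have hp4 : 0 < p ^ 4 := by positivity
    linarith
  have hid := idB x y p q
  rw [← hM, ← hD, ← hB] at hid
  have hB0 : 0 ≤ B := le_trans (by positivity) hB4
  have hS : 0 ≤ 4 * q ^ 3 * y * D + p * B := add_nonneg (by positivity) (mul_nonneg hp.le hB0)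
  have h3 := abs_mul_ge hE hS
  have h4 : |M ^ 4 * (15 * p ^ 2 + 16 * M)| * 16 ≤ 23 * p ^ 5 := by
    have e1 : |15 * p ^ 2 + 16 * M| ≤ 15 * p ^ 2 + 16 * |M| := by
      rw [abs_le]
      constructor <;> linarith
    have e4 : 15 * p ^ 2 + 16 * |M| ≤ 23 * p ^ 2 := by nlinarith
    rw [abs_mul, abs_of_nonneg (show 0 ≤ M ^ 4 by positivity)]
    calc M ^ 4 * |15 * p ^ 2 + 16 * M| * 16 = (16 * M ^ 4) * |15 * p ^ 2 + 16 * M| := by ring
      _ ≤ p ^ 3 * (23 * p ^ 2) := mul_le_mul h (e1.trans e4) (abs_nonneg _) (by positivity)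
      _ = 23 * p ^ 5 := by ring
  have h5 : 4 * q ^ 3 * y * D + p * B ≤ |16 * q ^ 6 * D ^ 2 * (y ^ 2 - x ^ 3)| +
      |M ^ 4 * (15 * p ^ 2 + 16 * M)| := by
    refine h3.trans ?_
    have e1 : (4 * q ^ 3 * y * D - p * B) * (4 * q ^ 3 * y * D + p * B) =
        16 * q ^ 6 * D ^ 2 * (y ^ 2 - x ^ 3) + M ^ 4 * (15 * p ^ 2 + 16 * M) := by
      rw [hid]; ring
    rw [e1]
    exact abs_add_le _ _
  have h6 : |16 * q ^ 6 * D ^ 2 * (y ^ 2 - x ^ 3)| = 16 * q ^ 6 * D ^ 2 * |y ^ 2 - x ^ 3| := by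
    rw [abs_mul, abs_of_nonneg (show 0 ≤ 16 * q ^ 6 * D ^ 2 by positivity)]
  rw [h6] at h5
  set k := |y ^ 2 - x ^ 3| with hkdef
  have hk0 : 0 ≤ k := by omega
  have h7 : 0 ≤ 4 * q ^ 3 * y * D := by positivity
  have h8 : 4 * p ^ 5 ≤ p * B := by
    calc 4 * p ^ 5 = p * (4 * p ^ 4) := by ring
      _ ≤ p * B := mul_le_mul_of_nonneg_left hB4 hp.le
  have h9 : 4 * D ^ 2 ≤ 169 * p ^ 4 := by
    calc 4 * D ^ 2 = (2 * D) ^ 2 := by ring
      _ ≤ (13 * p ^ 2) ^ 2 := pow_le_pow_left₀ (by linarith) hDu 2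
      _ = 169 * p ^ 4 := by ring
  have h10 : 16 * q ^ 6 * D ^ 2 * k ≤ 676 * q ^ 6 * p ^ 4 * k := by
    have e1 : 0 ≤ 4 * q ^ 6 * k := by positivity
    calc 16 * q ^ 6 * D ^ 2 * k = (4 * q ^ 6 * k) * (4 * D ^ 2) := by ring
      _ ≤ (4 * q ^ 6 * k) * (169 * p ^ 4) := mul_le_mul_of_nonneg_left h9 e1
      _ = 676 * q ^ 6 * p ^ 4 * k := by ring
  have hp4 : 0 < p ^ 4 := by positivity
  have h11 : p ^ 4 * (41 * p) ≤ p ^ 4 * (10816 * q ^ 6 * k) := by nlinarith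
  have h12 := le_of_mul_le_mul_left h11 hp4
  have h13 : p ≤ 264 * q ^ 6 * k := by
    have : 0 ≤ q ^ 6 * k := by positivity
    nlinarith
  have h14 : p ^ 2 ≤ (264 * q ^ 6 * k) ^ 2 := pow_le_pow_left₀ hp.le h13 2
  have h15 : q ^ 2 * x ≤ q ^ 2 * (104544 * q ^ 10 * k ^ 2) := by nlinarith
  exact le_of_mul_le_mul_left h15 hq2

/-- the identity for the Taylor polynomial of degree 1 of `(1 + z)^(3/2)` -/
theorem id0 (x y p q : ℤ) :
    4 * q ^ 6 * (y ^ 2 - x ^ 3) =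
      (2 * q ^ 3 * y - (2 * p ^ 3 + 3 * p * (q ^ 2 * x - p ^ 2))) *
      (2 * q ^ 3 * y + (2 * p ^ 3 + 3 * p * (q ^ 2 * x - p ^ 2))) -
      (q ^ 2 * x - p ^ 2) ^ 2 * (3 * p ^ 2 + 4 * (q ^ 2 * x - p ^ 2)) := by
  ring

theorem part0 {x y p q M : ℤ} (hM : M = q ^ 2 * x - p ^ 2) (hp : 0 < p) (hq : 0 < q)
    (hc : IsCoprime p q) (hy : 0 ≤ y) (h : 4 * M ^ 2 ≤ p) (hk : y ^ 2 - x ^ 3 ≠ 0) :
    x ^ 3 ≤ 54 * q ^ 6 * (y ^ 2 - x ^ 3) ^ 2 ∨ (q = 1 ∧ x ≤ 3 * |y ^ 2 - x ^ 3|) := by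
  have hp2 : 0 < p ^ 2 := by positivity
  have hpp : p ≤ p ^ 2 := by nlinarith
  have hq2 : 0 < q ^ 2 := by positivity
  have hksq : (y ^ 2 - x ^ 3) ^ 2 = |y ^ 2 - x ^ 3| ^ 2 := (sq_abs _).symm
  rw [hksq]
  by_cases hM0 : M = 0
  · left
    have e1 : q ^ 2 * x = p ^ 2 := by linarith
    have e2 : q ∣ p ^ 2 := ⟨q * x, by rw [← e1]; ring⟩
    have e3 : IsCoprime q (p ^ 2) := (hc.symm).pow_right
    have e4 : IsUnit q := e3.isUnit_of_dvd' dvd_rfl e2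
    have hq1 : q = 1 := by
      rcases Int.isUnit_iff.1 e4 with h6 | h6
      · exact h6
      · omega
    subst hq1
    have e5 : x = p ^ 2 := by linarith
    have e6 : y ^ 2 - x ^ 3 = (y - p ^ 3) * (y + p ^ 3) := by rw [e5]; ring
    have e7 : y - p ^ 3 ≠ 0 := by
      intro e
      apply hk
      rw [e6, e, zero_mul]
    have e8 : 0 ≤ y + p ^ 3 := by positivity
    have e9 := abs_mul_ge e7 e8
    rw [← e6] at e9
    have e10 : p ^ 3 ≤ |y ^ 2 - x ^ 3| := by linarith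
    have e11 : (p ^ 3) ^ 2 ≤ |y ^ 2 - x ^ 3| ^ 2 := pow_le_pow_left₀ (by positivity) e10 2
    have e12 : x ^ 3 = (p ^ 3) ^ 2 := by rw [e5]; ring
    have e13 : 0 ≤ |y ^ 2 - x ^ 3| ^ 2 := by positivity
    calc x ^ 3 = (p ^ 3) ^ 2 := e12
      _ ≤ |y ^ 2 - x ^ 3| ^ 2 := e11
      _ ≤ 54 * 1 ^ 6 * |y ^ 2 - x ^ 3| ^ 2 := by linarith
  have hMsq : 1 ≤ M ^ 2 := by
    have := Int.one_le_abs hM0
    have e := pow_le_pow_left₀ (by norm_num) this 2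
    rw [sq_abs] at e
    linarith
  have hp4 : 4 ≤ p := by linarith
  have hM4 : 4 * |M| ≤ p := by
    by_contra hcon
    push Not at hcon
    have e1 : p ^ 2 < (4 * |M|) ^ 2 := pow_lt_pow_left₀ hcon hp.le (by norm_num)
    have e2 : (4 * |M|) ^ 2 = 16 * M ^ 2 := by rw [mul_pow, sq_abs]; ring
    rw [e2] at e1
    nlinarith
  have hMu := le_abs_self M
  have hMl := neg_abs_le M
  have habs := abs_nonneg M
  set A := 2 * p ^ 3 + 3 * p * M with hA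
  have hid := id0 x y p q
  rw [← hM, ← hA] at hid
  have hx10 : 2 * (q ^ 2 * x) ≤ 3 * p ^ 2 := by nlinarith
  by_cases hE : 2 * q ^ 3 * y - A = 0
  · right
    have h3 : q ∣ p ^ 3 := by
      refine ⟨3 * p * q * x - 2 * q ^ 2 * y, ?_⟩
      rw [hA, hM] at hE
      linear_combination hE
    have e3 : IsCoprime q (p ^ 3) := (hc.symm).pow_right
    have e4 : IsUnit q := e3.isUnit_of_dvd' dvd_rfl h3
    have hq1 : q = 1 := by
      rcases Int.isUnit_iff.1 e4 with h6 | h6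
      · exact h6
      · omega
    subst hq1
    refine ⟨rfl, ?_⟩
    rw [hE, zero_mul, zero_sub] at hid
    have e5 : 4 * |y ^ 2 - x ^ 3| = M ^ 2 * |3 * p ^ 2 + 4 * M| := by
      have := congrArg abs hid
      rw [abs_mul (4 * 1 ^ 6), abs_neg, abs_mul (M ^ 2), abs_of_nonneg (sq_nonneg M)] at this
      simpa using this
    have e6 : 2 * p ^ 2 ≤ |3 * p ^ 2 + 4 * M| := by
      have := le_abs_self (3 * p ^ 2 + 4 * M)
      linarith
    have e7 : 2 * p ^ 2 ≤ M ^ 2 * |3 * p ^ 2 + 4 * M| := by nlinarith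
    linarith
  · left
    have hA0 : 2 * p ^ 3 - 3 * p * |M| ≤ A := by nlinarith
    have hpM : 16 * (3 * p * |M|) ≤ 3 * p ^ 3 := by nlinarith
    have hAn : 0 ≤ A := by
      have : 0 < p ^ 3 := by positivity
      linarith
    have hS : 0 ≤ 2 * q ^ 3 * y + A := add_nonneg (by positivity) hAn
    have h3 := abs_mul_ge hE hS
    have h4 : 16 * |M ^ 2 * (3 * p ^ 2 + 4 * M)| ≤ 13 * p ^ 3 := by
      have e1 : |3 * p ^ 2 + 4 * M| ≤ 3 * p ^ 2 + 4 * |M| := by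
        rw [abs_le]
        constructor <;> linarith
      have e4 : 4 * (3 * p ^ 2 + 4 * |M|) ≤ 13 * p ^ 2 := by nlinarith
      rw [abs_mul, abs_of_nonneg (sq_nonneg M)]
      have e5 : 0 ≤ 3 * p ^ 2 + 4 * |M| := by positivity
      calc 16 * (M ^ 2 * |3 * p ^ 2 + 4 * M|) = (4 * M ^ 2) * (4 * |3 * p ^ 2 + 4 * M|) := by ring
        _ ≤ p * (13 * p ^ 2) := by
            apply mul_le_mul h _ (by positivity) hp.le
            linarith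
        _ = 13 * p ^ 3 := by ring
    have h5 : 2 * q ^ 3 * y + A ≤ |4 * q ^ 6 * (y ^ 2 - x ^ 3)| +
        |M ^ 2 * (3 * p ^ 2 + 4 * M)| := by
      refine h3.trans ?_
      have e1 : (2 * q ^ 3 * y - A) * (2 * q ^ 3 * y + A) =
          4 * q ^ 6 * (y ^ 2 - x ^ 3) + M ^ 2 * (3 * p ^ 2 + 4 * M) := by
        rw [hid]; ring
      rw [e1]
      exact abs_add_le _ _
    have h6 : |4 * q ^ 6 * (y ^ 2 - x ^ 3)| = 4 * q ^ 6 * |y ^ 2 - x ^ 3| := by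
      rw [abs_mul, abs_of_nonneg (show 0 ≤ 4 * q ^ 6 by positivity)]
    rw [h6] at h5
    set k := |y ^ 2 - x ^ 3| with hkdef
    have hk0 : 0 ≤ k := abs_nonneg _
    have h7 : 0 ≤ 2 * q ^ 3 * y := by positivity
    have h8 : p ^ 3 ≤ 4 * q ^ 6 * k := by linarith
    have h9 : (p ^ 3) ^ 2 ≤ (4 * q ^ 6 * k) ^ 2 := pow_le_pow_left₀ (by positivity) h8 2
    have hx0 : 0 ≤ q ^ 2 * x := by nlinarith
    have h10 : (2 * (q ^ 2 * x)) ^ 3 ≤ (3 * p ^ 2) ^ 3 := pow_le_pow_left₀ (by linarith) hx10 3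
    have hq6 : 0 < q ^ 6 := by positivity
    have h11 : q ^ 6 * x ^ 3 ≤ q ^ 6 * (54 * q ^ 6 * k ^ 2) := by nlinarith
    exact le_of_mul_le_mul_left h11 hq6

/-- Hall's inequality from a bound for `x` -/
theorem hall_of_le {x y k c : ℤ} (hk : k ≠ 0) (h : y ^ 2 = x ^ 3 - k) (hx : 0 ≤ x)
    (hx2 : x ≤ c * k ^ 2) :
    |x| ^ 3 ≤ (c ^ 3 + 1) * |k| ^ 6 ∧ y ^ 2 ≤ (c ^ 3 + 1) * |k| ^ 6 := by
  have h1 : 1 ≤ |k| := Int.one_le_abs hk
  have e1 : x ^ 3 ≤ c ^ 3 * |k| ^ 6 := by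
    calc x ^ 3 ≤ (c * k ^ 2) ^ 3 := pow_le_pow_left₀ hx hx2 3
      _ = c ^ 3 * |k| ^ 6 := by rw [mul_pow, ← sq_abs k]; ring
  have e2 : |k| ≤ |k| ^ 6 := by
    calc |k| = |k| ^ 1 := (pow_one _).symm
      _ ≤ |k| ^ 6 := pow_le_pow_right₀ h1 (by norm_num)
  have e3 : 0 ≤ |k| ^ 6 := by positivity
  have e4 := neg_abs_le k
  rw [abs_of_nonneg hx]
  constructor
  · linarith
  · rw [h]
    linarith

theorem pos_x {x p q M : ℤ} (hM : M = q ^ 2 * x - p ^ 2) (hp : 0 < p) (hq : 0 < q)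
    (h2 : 2 * |M| ≤ p) : 0 < x := by
  have h3 := neg_abs_le M
  by_contra hcon
  push Not at hcon
  have h4 : q ^ 2 * x ≤ 0 := mul_nonpos_of_nonneg_of_nonpos (by positivity) hcon
  nlinarith

/-- Hall's inequality holds, with exponent `6` and an absolute constant, for all solutions of
`y² = x³ - k` for which `x` is very near to the square of a rational number `p/q` with small
denominator. -/
theorem result (x y k : ℤ) (hk : k ≠ 0) (h : y ^ 2 = x ^ 3 - k) (p q : ℤ) (hp : 0 < p)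
    (hq : 0 < q) :
    -- first range
    (IsCoprime p q → 4 * (q ^ 2 * x - p ^ 2) ^ 2 ≤ p →
      (x ^ 3 ≤ 54 * q ^ 6 * k ^ 2 ∨ (q = 1 ∧ x ≤ 3 * |k|)) ∧
      (q ^ 3 ≤ x → |x| ^ 3 ≤ 2 * 10 ^ 15 * |k| ^ 6 ∧ y ^ 2 ≤ 2 * 10 ^ 15 * |k| ^ 6)) ∧
    -- second range
    (IsCoprime p q → 8 * |q ^ 2 * x - p ^ 2| ^ 3 ≤ p ^ 2 →
      (x ≤ 220 * q ^ 4 * |k| ∨ (q = 1 ∧ x ^ 3 ≤ 320638531 * k ^ 4)) ∧
      (q ^ 8 ≤ x → |x| ^ 3 ≤ 2 * 10 ^ 15 * |k| ^ 6 ∧ y ^ 2 ≤ 2 * 10 ^ 15 * |k| ^ 6)) ∧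
    -- third range
    (16 * (q ^ 2 * x - p ^ 2) ^ 4 ≤ p ^ 3 →
      |x| ^ 3 ≤ 2 * 10 ^ 15 * q ^ 30 * |k| ^ 6 ∧ y ^ 2 ≤ 2 * 10 ^ 15 * q ^ 30 * |k| ^ 6) := by
  have hkk : |y| ^ 2 - x ^ 3 = -k := by rw [sq_abs, h]; ring
  have hne : |y| ^ 2 - x ^ 3 ≠ 0 := by rw [hkk]; exact neg_ne_zero.2 hk
  have hk1 : 1 ≤ |k| := Int.one_le_abs hk
  have hC1 : ∀ c : ℤ, c ≤ 2 * 10 ^ 15 → ∀ t : ℤ, t ≤ c * |k| ^ 6 →
      t ≤ 2 * 10 ^ 15 * |k| ^ 6 := by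
    intro c hc t ht
    exact ht.trans (mul_le_mul_of_nonneg_right hc (by positivity))
  have h1 : IsCoprime p q → 8 * |q ^ 2 * x - p ^ 2| ^ 3 ≤ p ^ 2 →
      x ≤ 220 * q ^ 4 * |k| ∨ (q = 1 ∧ x ^ 3 ≤ 320638531 * k ^ 4) := by
    intro hc hM
    by_cases hW : 8 * p * q ^ 3 * |y| - (8 * p ^ 4 + 12 * p ^ 2 * (q ^ 2 * x - p ^ 2) +
        3 * (q ^ 2 * x - p ^ 2) ^ 2) = 0
    · right
      have e1 := partA_eq rfl hp hq hc hM hne hW
      rw [hkk] at e1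
      refine ⟨?_, by
        have e2 : (-k) ^ 4 = k ^ 4 := by ring
        rw [e2] at e1
        exact e1⟩
      have h3 : q ∣ p ^ 4 := by
        refine ⟨q * (6 * p ^ 2 * x + 3 * q ^ 2 * x ^ 2) - 8 * p * q ^ 2 * |y|, ?_⟩
        linear_combination hW
      have h4 : IsCoprime q (p ^ 4) := (hc.symm).pow_right
      have h5 : IsUnit q := h4.isUnit_of_dvd' dvd_rfl h3
      rcases Int.isUnit_iff.1 h5 with h6 | h6
      · exact h6
      · omega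
    · left
      have e1 := partA_ne rfl hp hq (abs_nonneg y) hM hW
      rw [hkk, abs_neg] at e1
      exact e1
  refine ⟨?_, ?_, ?_⟩
  · intro hc hM
    have h3 := part0 rfl hp hq hc (abs_nonneg y) hM hne
    rw [hkk, abs_neg, neg_sq] at h3
    refine ⟨h3, fun hqx => ?_⟩
    have hx : 0 < x := lt_of_lt_of_le (by positivity) hqx
    rcases h3 with h3 | ⟨_, h3⟩
    · have h4 : x ^ 2 * x ≤ x ^ 2 * (54 * k ^ 2) := by
        have e1 : (q ^ 3) ^ 2 ≤ x ^ 2 := pow_le_pow_left₀ (by positivity) hqx 2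
        have e2 : 0 ≤ 54 * k ^ 2 := by positivity
        calc x ^ 2 * x = x ^ 3 := by ring
          _ ≤ 54 * q ^ 6 * k ^ 2 := h3
          _ = (q ^ 3) ^ 2 * (54 * k ^ 2) := by ring
          _ ≤ x ^ 2 * (54 * k ^ 2) := mul_le_mul_of_nonneg_right e1 e2
      have h5 := le_of_mul_le_mul_left h4 (by positivity)
      obtain ⟨h7, h8⟩ := hall_of_le hk h hx.le h5
      exact ⟨hC1 _ (by norm_num) _ h7, hC1 _ (by norm_num) _ h8⟩
    · have h5 : x ≤ 3 * k ^ 2 := by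
        have e1 : |k| ≤ |k| ^ 2 := by nlinarith
        rw [sq_abs] at e1
        linarith
      obtain ⟨h7, h8⟩ := hall_of_le hk h hx.le h5
      exact ⟨hC1 _ (by norm_num) _ h7, hC1 _ (by norm_num) _ h8⟩
  · intro hc hM
    refine ⟨h1 hc hM, fun hqx => ?_⟩
    have h2 : 2 * |q ^ 2 * x - p ^ 2| ≤ p :=
      two_abs_le (n := 2) (by norm_num) hp (by
        have e : (2 * |q ^ 2 * x - p ^ 2|) ^ (2 + 1) = 8 * |q ^ 2 * x - p ^ 2| ^ 3 := by ring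
        rw [e]; exact hM)
    have hx := pos_x rfl hp hq h2
    have hk6 : 0 ≤ |k| ^ 6 := by positivity
    rcases h1 hc hM with h3 | ⟨_, h3⟩
    · have h4 : x ^ 2 ≤ (220 * q ^ 4 * |k|) ^ 2 := pow_le_pow_left₀ hx.le h3 2
      have h5 : x * x ≤ x * (48400 * k ^ 2) := by
        have e1 : (220 * q ^ 4 * |k|) ^ 2 = 48400 * q ^ 8 * k ^ 2 := by
          rw [mul_pow, mul_pow, sq_abs]; ring
        rw [e1] at h4
        have e2 : 0 ≤ 48400 * k ^ 2 := by positivity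
        nlinarith
      have h6 := le_of_mul_le_mul_left h5 hx
      obtain ⟨h7, h8⟩ := hall_of_le hk h hx.le h6
      constructor <;> nlinarith
    · have e1 : k ^ 4 ≤ |k| ^ 6 := by
        have e2 : k ^ 4 = |k| ^ 4 := (Even.pow_abs (by decide) k).symm
        rw [e2]
        exact pow_le_pow_right₀ hk1 (by norm_num)
      have e2 : |k| ≤ |k| ^ 6 := by
        calc |k| = |k| ^ 1 := (pow_one _).symm
          _ ≤ |k| ^ 6 := pow_le_pow_right₀ hk1 (by norm_num)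
      have e4 := neg_abs_le k
      rw [abs_of_nonneg hx.le]
      constructor
      · linarith
      · rw [h]
        linarith
  · intro hM
    have hMabs : |q ^ 2 * x - p ^ 2| ^ 4 = (q ^ 2 * x - p ^ 2) ^ 4 := Even.pow_abs (by decide) _
    have h2 : 2 * |q ^ 2 * x - p ^ 2| ≤ p :=
      two_abs_le (n := 3) (by norm_num) hp (by
        have e : (2 * |q ^ 2 * x - p ^ 2|) ^ (3 + 1) = 16 * |q ^ 2 * x - p ^ 2| ^ 4 := by ring
        rw [e, hMabs]; exact hM)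
    have hx := pos_x rfl hp hq h2
    have h3 := partB rfl hp hq (abs_nonneg y) hM hne
    rw [hkk, neg_sq] at h3
    obtain ⟨h7, h8⟩ := hall_of_le hk h hx.le h3
    have hk6 : 0 ≤ |k| ^ 6 := by positivity
    have hq30 : 1 ≤ q ^ 30 := one_le_pow₀ hq
    have e1 : (104544 * q ^ 10) ^ 3 + 1 ≤ 2 * 10 ^ 15 * q ^ 30 := by
      have e2 : (104544 * q ^ 10) ^ 3 = 104544 ^ 3 * q ^ 30 := by ring
      rw [e2]
      norm_num
      linarith
    have e2 := mul_le_mul_of_nonneg_right e1 hk6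
    exact ⟨h7.trans e2, h8.trans e2⟩

end Pool.Agent.Results.MP_ca6ed4_nt.NearSquares
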